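import Mathlib

/-!
# Half systems in a finite group and odd characters: Littlewood-Offord

`G` is a finite group, `c` an element with `c * c = 1`.  A half system is a set `A` of elements with
`g ∈ A ↔ g * c ∉ A`.
-/

namespace Pool.Agent.H977R3.AB

open Finset

variable {G : Type*} [Group G] [Fintype G] [DecidableEq G]

/-- The sum of the values of the character `χ` with the signs of `A`. -/
noncomputable def csum (χ : G →* ℂ) (A : Finset G) : ℂ :=
  ∑ g, (if g ∈ A then 1 else -1) * χ g

/-- There is a real linear functional which does not vanish on the values of `χ`. -/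
theorem exists_functional (χ : G →* ℂ) : ∃ t : ℝ, ∀ g, (χ g).re - t * (χ g).im ≠ 0 := by
  classical
  obtain ⟨t, ht⟩ := Infinite.exists_notMem_finset
    (Finset.univ.image (fun g : G => (χ g).re / (χ g).im))
  refine ⟨t, fun g h => ?_⟩
  have hne : χ g ≠ 0 := by
    intro h0
    have h1 : χ g * χ g⁻¹ = 1 := by rw [← map_mul, mul_inv_cancel, map_one]
    rw [h0, zero_mul] at h1
    exact zero_ne_one h1
  by_cases him : (χ g).im = 0
  · rw [him, mul_zero, sub_zero] at h
    exact hne (Complex.ext h him)
  · apply ht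
    rw [Finset.mem_image]
    refine ⟨g, Finset.mem_univ _, ?_⟩
    field_simp
    linarith

variable (c : G) (hc : c * c = 1)

include hc in
/-- At most `n.choose (n / 2)` half systems have vanishing character sum, `2 n` the order of the
group. -/
theorem card_le (χ : G →* ℂ) (hχ : χ c = -1) (n : ℕ) (hn : Fintype.card G = 2 * n)
    (𝒜 : Finset (Finset G)) (h𝒜 : ∀ A ∈ 𝒜, (∀ g, g ∈ A ↔ g * c ∉ A) ∧ csum χ A = 0) :
    𝒜.card ≤ n.choose (n / 2) := by
  classical
  obtain ⟨t, ht⟩ := exists_functional χ
  let a : G → ℝ := fun g => (χ g).re - t * (χ g).im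
  have ha0 : ∀ g, a g ≠ 0 := ht
  have hac : ∀ g, a (g * c) = -a g := by
    intro g
    simp only [a, map_mul, hχ]
    simp only [mul_neg, mul_one, Complex.neg_re, Complex.neg_im]
    ring
  let P : Finset G := univ.filter (fun g => 0 < a g)
  have hP : ∀ g, g ∈ P ↔ g * c ∉ P := by
    intro g
    simp only [P, mem_filter, mem_univ, true_and, hac, not_lt]
    constructor
    · intro h
      linarith
    · intro h
      exact lt_of_le_of_ne (by linarith) (ha0 g).symm
  have hcc : ∀ g : G, g * c * c = g := fun g => by rw [mul_assoc, hc, mul_one]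
  have hPc : P.card = n := by
    have h1 : Fintype.card G = P.card + Pᶜ.card := by
      rw [Finset.card_compl, Nat.add_sub_cancel' (Finset.card_le_univ P)]
    have h2 : Pᶜ.card = P.card := by
      refine Finset.card_nbij' (fun g => g * c) (fun g => g * c) ?_ ?_ ?_ ?_
      · intro g hg
        rw [mem_coe, mem_compl] at hg
        rw [mem_coe]
        by_contra h3
        exact hg ((hP g).2 h3)
      · intro g hg
        rw [mem_coe] at hg
        rw [mem_coe, mem_compl]
        exact (hP g).1 hg
      · intro g _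
        exact hcc g
      · intro g _
        exact hcc g
    omega
  -- real sums
  have hsum : ∀ A ∈ 𝒜, ∑ g, (if g ∈ A then (1 : ℝ) else -1) * a g = 0 := by
    intro A hA
    have h1 := (h𝒜 A hA).2
    have h2 : ∑ g, (if g ∈ A then (1 : ℝ) else -1) * a g =
        (csum χ A).re - t * (csum χ A).im := by
      unfold csum
      rw [Complex.re_sum, Complex.im_sum, Finset.mul_sum, ← Finset.sum_sub_distrib]
      refine Finset.sum_congr rfl fun g _ => ?_
      by_cases hg : g ∈ A
      · simp only [if_pos hg, one_mul, a]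
      · simp only [if_neg hg, neg_one_mul, Complex.neg_re, Complex.neg_im, a]
        ring
    rw [h2, h1]
    simp
  have hsumP : ∀ A ∈ 𝒜, ∑ g ∈ P, (if g ∈ A then (1 : ℝ) else -1) * a g = 0 := by
    intro A hA
    have h1 := hsum A hA
    have h2 : ∑ g ∈ Pᶜ, (if g ∈ A then (1 : ℝ) else -1) * a g =
        ∑ g ∈ P, (if g ∈ A then (1 : ℝ) else -1) * a g := by
      refine Finset.sum_nbij' (fun g => g * c) (fun g => g * c) ?_ ?_ ?_ ?_ ?_
      · intro g hg
        rw [mem_compl] at hg
        by_contra h3
        exact hg ((hP g).2 h3)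
      · intro g hg
        rw [mem_compl]
        exact (hP g).1 hg
      · intro g _
        exact hcc g
      · intro g _
        exact hcc g
      · intro g _
        change _ = (if g * c ∈ A then (1 : ℝ) else -1) * a (g * c)
        rw [hac]
        have h3 := (h𝒜 A hA).1 g
        by_cases h4 : g ∈ A
        · rw [if_pos h4, if_neg (h3.1 h4)]
          ring
        · have h5 : g * c ∈ A := by
            by_contra h6
            exact h4 (h3.2 h6)
          rw [if_neg h4, if_pos h5]
          ring
    have h3 := Finset.sum_add_sum_compl P (fun g => (if g ∈ A then (1 : ℝ) else -1) * a g)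
    rw [h1, h2] at h3
    linarith
  -- the antichain
  let F : Finset G → Finset P := fun A => univ.filter (fun g : P => (g : G) ∈ A)
  have hFmem : ∀ A (g : P), g ∈ F A ↔ (g : G) ∈ A := fun A g => by
    simp only [F, mem_filter, mem_univ, true_and]
  have hinj : Set.InjOn F (𝒜 : Set (Finset G)) := by
    intro A hA B hB hAB
    rw [mem_coe] at hA hB
    have h1 : ∀ g, g ∈ P → (g ∈ A ↔ g ∈ B) := by
      intro g hg
      rw [← hFmem A ⟨g, hg⟩, ← hFmem B ⟨g, hg⟩, hAB]
    ext g
    by_cases hg : g ∈ P
    · exact h1 g hg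
    · have hg' : g * c ∈ P := by
        by_contra h2
        exact hg ((hP g).2 h2)
      have h2 := h1 _ hg'
      rw [(h𝒜 A hA).1 g, (h𝒜 B hB).1 g, h2]
  have hanti : IsAntichain (· ⊆ ·) ((𝒜.image F : Finset (Finset P)) : Set (Finset P)) := by
    rintro _ hA' _ hB' hne hsub
    rw [mem_coe, Finset.mem_image] at hA' hB'
    obtain ⟨A, hA, rfl⟩ := hA'
    obtain ⟨B, hB, rfl⟩ := hB'
    have h1 : ∀ g ∈ P, g ∈ A → g ∈ B := by
      intro g hg hgA
      exact (hFmem B ⟨g, hg⟩).1 (hsub ((hFmem A ⟨g, hg⟩).2 hgA))
    obtain ⟨g₀, hg₀B, hg₀A⟩ : ∃ g₀ : P, g₀ ∈ F B ∧ g₀ ∉ F A := by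
      by_contra hcon
      push Not at hcon
      exact hne (Finset.Subset.antisymm hsub hcon)
    rw [hFmem] at hg₀B hg₀A
    have h2 : ∑ g ∈ P, (if g ∈ A then (1 : ℝ) else -1) * a g <
        ∑ g ∈ P, (if g ∈ B then (1 : ℝ) else -1) * a g := by
      refine Finset.sum_lt_sum ?_ ⟨g₀, g₀.2, ?_⟩
      · intro g hg
        have hag : 0 < a g := (mem_filter.1 hg).2
        by_cases h3 : g ∈ A
        · rw [if_pos h3, if_pos (h1 g hg h3)]
        · rw [if_neg h3]
          split_ifs <;> linarith
      · have hag : 0 < a g₀ := (mem_filter.1 g₀.2).2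
        rw [if_neg hg₀A, if_pos hg₀B]
        linarith
    rw [hsumP A hA, hsumP B hB] at h2
    exact lt_irrefl _ h2
  have h3 := hanti.sperner
  rw [Finset.card_image_of_injOn hinj, Fintype.card_coe, hPc] at h3
  exact h3

end Pool.Agent.H977R3.AB
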