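import Mathlib
import Pool.Agent.H977R3.AB.Count

/-!
# Characters with the same kernel
-/

namespace Pool.Agent.H977R3.AB

open Finset Polynomial

variable {G : Type*} [Group G] [Fintype G] [DecidableEq G]

/-- The values of a character of a finite group are the powers of one value. -/
theorem exists_generator (χ : G →* ℂ) : ∃ g₁ : G, ∀ g : G, ∃ k : ℕ, χ g = χ g₁ ^ k := by
  let f : G →* ℂˣ := χ.toHomUnits
  have hf : ∀ g, ((f g : ℂˣ) : ℂ) = χ g := fun g => MonoidHom.coe_toHomUnits χ g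
  have _ : Finite f.range := by
    have := Set.finite_range f
    exact this
  obtain ⟨⟨y, hy⟩, hgen⟩ := IsCyclic.exists_monoid_generator (α := f.range)
  obtain ⟨g₁, rfl⟩ := hy
  refine ⟨g₁, fun g => ?_⟩
  obtain ⟨k, hk⟩ := Submonoid.mem_powers_iff _ _ |>.1 (hgen ⟨f g, ⟨g, rfl⟩⟩)
  refine ⟨k, ?_⟩
  have h1 := congrArg (fun x : f.range => ((x : ℂˣ) : ℂ)) hk
  simp only [SubmonoidClass.coe_pow, Units.val_pow_eq_pow_val, hf] at h1
  exact h1.symm

theorem csum_eq_zero_of_ker (χ χ' : G →* ℂ) (hk : ∀ g, χ g = 1 ↔ χ' g = 1) (A : Finset G)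
    (h : csum χ A = 0) : csum χ' A = 0 := by
  classical
  obtain ⟨g₁, hg₁⟩ := exists_generator χ
  choose k hk1 using hg₁
  have hne : ∀ g, χ g * χ g⁻¹ = 1 := fun g => by rw [← map_mul, mul_inv_cancel, map_one]
  have hk2 : ∀ g, χ' g = χ' g₁ ^ k g := by
    intro g
    have h1 : χ (g * (g₁ ^ k g)⁻¹) = 1 := by
      rw [map_mul, hk1 g, ← map_pow, hne]
    rw [hk, map_mul] at h1
    have h2 : χ' (g₁ ^ k g)⁻¹ * χ' (g₁ ^ k g) = 1 := by
      rw [← map_mul, inv_mul_cancel, map_one]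
    have h3 : χ' g * (χ' (g₁ ^ k g)⁻¹ * χ' (g₁ ^ k g)) = χ' (g₁ ^ k g) := by
      rw [← mul_assoc, h1, one_mul]
    rw [h2, mul_one, map_pow] at h3
    exact h3
  let P : ℚ[X] := ∑ g, C (if g ∈ A then (1 : ℚ) else -1) * X ^ k g
  have haeval : ∀ (χ'' : G →* ℂ), (∀ g, χ'' g = χ'' g₁ ^ k g) → aeval (χ'' g₁) P = csum χ'' A := by
    intro χ'' hχ''
    simp only [P, map_sum, map_mul, aeval_C, map_pow, aeval_X, csum]
    refine Finset.sum_congr rfl fun g _ => ?_
    rw [← hχ'' g]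
    by_cases hg : g ∈ A
    · rw [if_pos hg, if_pos hg, map_one]
    · rw [if_neg hg, if_neg hg, map_neg, map_one]
  have hfin : IsOfFinOrder (χ g₁) := by
    rw [isOfFinOrder_iff_pow_eq_one]
    exact ⟨Fintype.card G, Fintype.card_pos, by rw [← map_pow, pow_card_eq_one, map_one]⟩
  have hpos : 0 < orderOf (χ g₁) := hfin.orderOf_pos
  have hord : orderOf (χ' g₁) = orderOf (χ g₁) := by
    rw [orderOf_eq_orderOf_iff]
    intro n
    rw [← map_pow, ← map_pow, hk]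
  have h1 : IsPrimitiveRoot (χ g₁) (orderOf (χ g₁)) := IsPrimitiveRoot.orderOf _
  have h2 : IsPrimitiveRoot (χ' g₁) (orderOf (χ g₁)) := by
    rw [← hord]
    exact IsPrimitiveRoot.orderOf _
  have h3 : minpoly ℚ (χ g₁) = minpoly ℚ (χ' g₁) := by
    rw [← cyclotomic_eq_minpoly_rat h1 hpos, ← cyclotomic_eq_minpoly_rat h2 hpos]
  have h4 : minpoly ℚ (χ g₁) ∣ P := minpoly.dvd ℚ _ (by rw [haeval χ hk1]; exact h)
  rw [h3] at h4
  obtain ⟨R, hR⟩ := h4
  rw [← haeval χ' hk2, hR, map_mul, minpoly.aeval, zero_mul]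

/-- The subgroups with cyclic quotient that do not contain `c`. -/
def oddKernels (c : G) : Set (Subgroup G) :=
  {H | c ∉ H ∧ ∃ g₁ : G, ∀ g : G, ∃ k : ℕ, g * (g₁ ^ k)⁻¹ ∈ H}

theorem ker_mem_oddKernels (c : G) (χ : G →* ℂ) (hχ : χ c = -1) : χ.ker ∈ oddKernels c := by
  refine ⟨fun h => ?_, ?_⟩
  · rw [MonoidHom.mem_ker, hχ] at h
    norm_num at h
  · obtain ⟨g₁, hg₁⟩ := exists_generator χ
    refine ⟨g₁, fun g => ?_⟩
    obtain ⟨k, hk⟩ := hg₁ g
    refine ⟨k, ?_⟩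
    rw [MonoidHom.mem_ker, map_mul, hk, ← map_pow, ← map_mul, mul_inv_cancel, map_one]

/-- The number of half systems for which some odd character sum vanishes. -/
theorem card_degenerate_le (c : G) (hc : c * c = 1) (n : ℕ) (hn : Fintype.card G = 2 * n)
    (𝒜 : Finset (Finset G))
    (h𝒜 : ∀ A ∈ 𝒜, (∀ g, g ∈ A ↔ g * c ∉ A) ∧ ∃ χ : G →* ℂ, χ c = -1 ∧ csum χ A = 0) :
    𝒜.card ≤ (oddKernels c).ncard * n.choose (n / 2) := by
  classical
  have hfinK : (oddKernels c).Finite := Set.toFinite _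
  -- choose a kernel for every member
  choose χ hχ using fun A : 𝒜 => (h𝒜 A.1 A.2).2
  let K : Finset G → Subgroup G := fun A => if h : A ∈ 𝒜 then (χ ⟨A, h⟩).ker else ⊤
  have hK : ∀ A ∈ 𝒜, K A ∈ hfinK.toFinset := by
    intro A hA
    rw [Set.Finite.mem_toFinset]
    simp only [K, dif_pos hA]
    exact ker_mem_oddKernels c _ (hχ ⟨A, hA⟩).1
  have h1 : 𝒜.card ≤ hfinK.toFinset.card * n.choose (n / 2) := by
    rw [Finset.card_eq_sum_card_fiberwise (fun A hA => hK A hA)]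
    refine (Finset.sum_le_card_nsmul _ _ (n.choose (n / 2)) ?_).trans (by rw [smul_eq_mul])
    intro H _
    by_cases hne : (𝒜.filter (fun A => K A = H)).Nonempty
    · obtain ⟨A₀, hA₀⟩ := hne
      rw [Finset.mem_filter] at hA₀
      have hKA₀ : (χ ⟨A₀, hA₀.1⟩).ker = H := by
        have := hA₀.2
        simp only [K, dif_pos hA₀.1] at this
        exact this
      refine card_le c hc (χ ⟨A₀, hA₀.1⟩) (hχ ⟨A₀, hA₀.1⟩).1 n hn _ ?_
      intro A hA
      rw [Finset.mem_filter] at hA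
      refine ⟨(h𝒜 A hA.1).1, ?_⟩
      have hKA : (χ ⟨A, hA.1⟩).ker = H := by
        have := hA.2
        simp only [K, dif_pos hA.1] at this
        exact this
      refine csum_eq_zero_of_ker (χ ⟨A, hA.1⟩) _ (fun g => ?_) A (hχ ⟨A, hA.1⟩).2
      rw [← MonoidHom.mem_ker, ← MonoidHom.mem_ker, hKA, hKA₀]
    · rw [Finset.not_nonempty_iff_eq_empty] at hne
      rw [hne, Finset.card_empty]
      exact Nat.zero_le _
  rwa [← Set.ncard_eq_toFinset_card _ hfinK] at h1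

end Pool.Agent.H977R3.AB
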