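import Mathlib
import Pool.Agent.H204R3.CM.Defs

/-!
# Degenerate CM types of abelian CM fields
-/

namespace Pool.Agent.H977R3.AB

open NumberField Pool.Agent.H204R3.CM

/-- Complex conjugation as an element of the Galois group of a CM field. -/
noncomputable def conj (E : Type*) [Field E] [NumberField E] [IsCMField E] : E ≃ₐ[ℚ] E :=
  (IsCMField.complexConj E).restrictScalars ℚ

open Classical in
/-- The degenerate CM types of a CM field that is Galois over the rational numbers: for a complex
embedding `φ` and an odd character `χ` of the Galois group the sum of the values `χ g`, with the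
sign `1` if `φ ∘ g` belongs to the type and `-1` otherwise, vanishes. -/
def Degenerate (E : Type*) [Field E] [NumberField E] [IsCMField E] : Set (Set (E →+* ℂ)) :=
  {Φ | IsCMType Φ ∧ ∃ (φ : E →+* ℂ) (χ : (E ≃ₐ[ℚ] E) →* ℂ), χ (conj E) = -1 ∧
    ∑ g : E ≃ₐ[ℚ] E, (if φ.comp (g : E →+* E) ∈ Φ then 1 else -1) * χ g = 0}

/-- The subfields that are cyclic over the rational numbers and not totally real (for a subfield of
an abelian CM field: the cyclic CM subfields). -/
def cyclicCM (E : Type*) [Field E] [NumberField E] : Set (IntermediateField ℚ E) :=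
  {F | IsCyclic (F ≃ₐ[ℚ] F) ∧ ¬ IsTotallyReal F}

/-- The images of `F` and `F'` under any complex embeddings have only real numbers in common. -/
def RealMeet (F F' : Type*) [Field F] [Field F'] : Prop :=
  ∀ (φ : F →+* ℂ) (ψ : F' →+* ℂ) (x : F) (y : F'), φ x = ψ y → (φ x).im = 0

end Pool.Agent.H977R3.AB
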