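import Mathlib
import Pool.Agent.H977R3.AB.Defs
import Pool.Agent.H977R3.AB.Kernel
import Pool.Agent.H977R3.CM.Prime

/-!
# Nondegenerate CM types of abelian CM fields
-/

set_option linter.unusedSectionVars false

namespace Pool.Agent.H977R3.AB

open NumberField Module MulAction Pool.Agent.H204R3.CM Pool.Agent.H977R3.CM

/-- A function on a finite commutative group with vanishing character sums is zero. -/
theorem complete {G : Type*} [CommGroup G] [Fintype G] (c : G → ℂ)
    (h : ∀ χ : G →* ℂ, ∑ k, c k * χ k⁻¹ = 0) : ∀ k, c k = 0 := by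
  classical
  intro a
  have h1 : ∀ ψ : AddChar (Additive G) ℂ, ∑ k : G, c k * ψ (-Additive.ofMul k) = 0 := by
    intro ψ
    let χ : G →* ℂ :=
      { toFun := fun g => ψ (Additive.ofMul g)
        map_one' := by
          rw [ofMul_one, AddChar.map_zero_eq_one]
        map_mul' := fun x y => by
          rw [ofMul_mul, AddChar.map_add_eq_mul] }
    exact h χ
  have h2 : ∑ ψ : AddChar (Additive G) ℂ, ∑ k : G, c k * ψ (Additive.ofMul a - Additive.ofMul k)
      = 0 := by
    refine Finset.sum_eq_zero fun ψ _ => ?_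
    have h3 : ∀ k : G, c k * ψ (Additive.ofMul a - Additive.ofMul k) =
        ψ (Additive.ofMul a) * (c k * ψ (-Additive.ofMul k)) := by
      intro k
      rw [sub_eq_add_neg, AddChar.map_add_eq_mul]
      ring
    rw [Finset.sum_congr rfl (fun k _ => h3 k), ← Finset.mul_sum, h1, mul_zero]
  rw [Finset.sum_comm] at h2
  have h4 : ∀ k : G, ∑ ψ : AddChar (Additive G) ℂ, c k * ψ (Additive.ofMul a - Additive.ofMul k) =
      if k = a then c a * Fintype.card (Additive G) else 0 := by
    intro k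
    rw [← Finset.mul_sum, AddChar.sum_apply_eq_ite]
    by_cases hk : k = a
    · rw [if_pos hk, hk, sub_self, if_pos rfl]
    · rw [if_neg hk, if_neg, mul_zero]
      intro h5
      rw [sub_eq_zero] at h5
      exact hk (Additive.ofMul.injective h5).symm
  rw [Finset.sum_congr rfl (fun k _ => h4 k), Finset.sum_ite_eq' Finset.univ a,
    if_pos (Finset.mem_univ _)] at h2
  rcases mul_eq_zero.1 h2 with h5 | h5
  · exact h5
  · exfalso
    have h6 : Fintype.card (Additive G) = 0 := by exact_mod_cast h5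
    exact Fintype.card_ne_zero h6

variable {E : Type*} [Field E] [NumberField E] [IsCMField E]

theorem conj_mul_conj : conj E * conj E = 1 := by
  ext x
  change IsCMField.complexConj E (IsCMField.complexConj E x) = x
  exact IsCMField.complexConj_apply_apply E x

theorem comp_injective' {L : Type*} [Field L] (φ₀ : E →+* L) :
    Function.Injective (fun g : E ≃ₐ[ℚ] E => φ₀.comp (g : E →+* E)) := by
  intro g g' h
  ext x
  exact φ₀.injective (RingHom.congr_fun h x)

theorem comp_bijective [IsGalois ℚ E] {L : Type*} [Field L] [NumberField L] (j : L →+* ℂ)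
    (h : ∀ ψ : E →+* ℂ, ∃ φ : E →+* L, j.comp φ = ψ) (φ₀ : E →+* L) :
    Function.Bijective (fun g : E ≃ₐ[ℚ] E => φ₀.comp (g : E →+* E)) := by
  classical
  rw [Fintype.bijective_iff_injective_and_card]
  refine ⟨comp_injective' φ₀, ?_⟩
  rw [card_emb j h, ← Nat.card_eq_fintype_card]
  exact IsGalois.card_aut_eq_finrank ℚ E

theorem comp_bijectiveC [IsGalois ℚ E] (φ₀ : E →+* ℂ) :
    Function.Bijective (fun g : E ≃ₐ[ℚ] E => φ₀.comp (g : E →+* E)) := by
  classical
  rw [Fintype.bijective_iff_injective_and_card]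
  refine ⟨comp_injective' φ₀, ?_⟩
  rw [Embeddings.card, ← Nat.card_eq_fintype_card]
  exact IsGalois.card_aut_eq_finrank ℚ E

/-- The vector of signs of a nondegenerate CM type satisfies no relation. -/
theorem single_abelian [IsAbelianGalois ℚ E] {L : Type*} [Field L] [NumberField L]
    [IsGalois ℚ L] {Φ : Set (E →+* ℂ)} (hΦ : IsCMType Φ) (j : L →+* ℂ)
    (h : ∀ ψ : E →+* ℂ, ∃ φ : E →+* L, j.comp φ = ψ) (hnd : Φ ∉ Degenerate E)
    [DecidablePred (fun φ : E →+* L => j.comp φ ∈ Φ)]
    (c : (E →+* L) → ℤ) (hc : ∀ φ, c (cbar φ) = -c φ)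
    (hrel : ∀ g : L ≃ₐ[ℚ] L, ∑ φ, c φ * (if j.comp (g • φ) ∈ Φ then (1 : ℤ) else -1) = 0) :
    ∀ φ, c φ = 0 := by
  classical
  intro φ₀
  let G := E ≃ₐ[ℚ] E
  let _ : CommGroup G :=
    { (inferInstance : Group (E ≃ₐ[ℚ] E)) with
      mul_comm := fun x y => (inferInstance : IsMulCommutative (E ≃ₐ[ℚ] E)).is_comm.comm x y }
  let ε : G → ℤ := fun m => if j.comp (φ₀.comp (m : E →+* E)) ∈ Φ then 1 else -1
  let cE : G → ℤ := fun k => c (φ₀.comp (k : E →+* E))
  have hrelE : ∀ h' : G, ∑ k : G, cE k * ε (h' * k) = 0 := by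
    intro h'
    obtain ⟨g, hg⟩ := exists_smul_eq (L ≃ₐ[ℚ] L) φ₀ (φ₀.comp (h' : E →+* E))
    have h1 := hrel g
    rw [← (Equiv.ofBijective _ (comp_bijective j h φ₀)).sum_comp] at h1
    rw [← h1]
    refine Finset.sum_congr rfl fun k _ => ?_
    have h2 : g • (φ₀.comp (k : E →+* E)) = φ₀.comp ((h' * k : G) : E →+* E) := by
      ext x
      have h3 := RingHom.congr_fun hg (k x)
      exact h3
    change cE k * ε (h' * k) = c (φ₀.comp (k : E →+* E)) *
      (if j.comp (g • (φ₀.comp (k : E →+* E))) ∈ Φ then (1 : ℤ) else -1)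
    rw [h2]
  have hcc : ∀ k : G, cE (k * conj E) = -cE k := by
    intro k
    have h1 : φ₀.comp ((k * conj E : G) : E →+* E) = cbar (φ₀.comp (k : E →+* E)) := by
      ext x
      rfl
    change c (φ₀.comp ((k * conj E : G) : E →+* E)) = _
    rw [h1, hc]
  have key : ∀ χ : G →* ℂ, ∑ k : G, (cE k : ℂ) * χ k⁻¹ = 0 := by
    intro χ
    have h1 : χ (conj E) * χ (conj E) = 1 := by
      rw [← map_mul, conj_mul_conj, map_one]
    rcases mul_self_eq_one_iff.1 h1 with h2 | h2
    · -- even characters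
      have h3 : ∑ k : G, (cE k : ℂ) * χ k⁻¹ = -∑ k : G, (cE k : ℂ) * χ k⁻¹ := by
        conv_lhs => rw [← Equiv.sum_comp (Equiv.mulRight (conj E))]
        rw [← Finset.sum_neg_distrib]
        refine Finset.sum_congr rfl fun k _ => ?_
        have h4 : χ (k * conj E)⁻¹ = χ k⁻¹ := by
          rw [mul_inv_rev, map_mul]
          have h5 : (conj E)⁻¹ = conj E := inv_eq_of_mul_eq_one_right conj_mul_conj
          rw [h5, h2, one_mul]
        rw [Equiv.coe_mulRight, hcc, h4]
        push_cast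
        ring
      have h4 : (2 : ℂ) * ∑ k : G, (cE k : ℂ) * χ k⁻¹ = 0 := by linear_combination h3
      exact (mul_eq_zero.1 h4).resolve_left two_ne_zero
    · -- odd characters
      have h3 : ∑ m : G, ((ε m : ℤ) : ℂ) * χ m ≠ 0 := by
        intro h4
        apply hnd
        refine ⟨hΦ, j.comp φ₀, χ, h2, ?_⟩
        rw [← h4]
        refine Finset.sum_congr rfl fun m _ => ?_
        have h5 : (j.comp φ₀).comp (m : E →+* E) = j.comp (φ₀.comp (m : E →+* E)) := rfl
        rw [h5]
        simp only [ε]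
        by_cases h6 : j.comp (φ₀.comp (m : E →+* E)) ∈ Φ
        · rw [if_pos h6, if_pos h6, Int.cast_one]
        · rw [if_neg h6, if_neg h6, Int.cast_neg, Int.cast_one]
      have h4 : ∑ h' : G, χ h' * ∑ k : G, (cE k : ℂ) * ((ε (h' * k) : ℤ) : ℂ) = 0 := by
        refine Finset.sum_eq_zero fun h' _ => ?_
        have h5 := hrelE h'
        have h6 : ∑ k : G, (cE k : ℂ) * ((ε (h' * k) : ℤ) : ℂ) = 0 := by exact_mod_cast h5
        rw [h6, mul_zero]
      have h5 : ∑ h' : G, χ h' * ∑ k : G, (cE k : ℂ) * ((ε (h' * k) : ℤ) : ℂ) =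
          (∑ k : G, (cE k : ℂ) * χ k⁻¹) * ∑ m : G, ((ε m : ℤ) : ℂ) * χ m := by
        rw [Finset.sum_mul]
        simp only [Finset.mul_sum]
        rw [Finset.sum_comm]
        refine Finset.sum_congr rfl fun k _ => ?_
        rw [← Equiv.sum_comp (Equiv.mulRight k)
          (fun m : G => (cE k : ℂ) * χ k⁻¹ * (((ε m : ℤ) : ℂ) * χ m))]
        refine Finset.sum_congr rfl fun h' _ => ?_
        rw [Equiv.coe_mulRight, map_mul]
        have h6 : χ k⁻¹ * χ k = 1 := by rw [← map_mul, inv_mul_cancel, map_one]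
        linear_combination (-(χ h' * (cE k : ℂ) * ((ε (h' * k) : ℤ) : ℂ))) * h6
      rw [h5] at h4
      exact (mul_eq_zero.1 h4).resolve_right h3
  have h1 := complete (G := G) (fun k => (cE k : ℂ)) key 1
  have h2 : cE 1 = 0 := by exact_mod_cast h1
  exact h2

/-- The number of degenerate CM types, by the number of kernels of odd characters. -/
theorem ncard_degenerate_le_kernels [IsGalois ℚ E] :
    (Degenerate E).ncard ≤ (oddKernels (conj E)).ncard *
      (finrank ℚ E / 2).choose (finrank ℚ E / 2 / 2) := by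
  classical
  obtain ⟨φ₀⟩ : Nonempty (E →+* ℂ) := inferInstance
  let A : Set (E →+* ℂ) → Finset (E ≃ₐ[ℚ] E) := fun Φ =>
    Finset.univ.filter (fun g => φ₀.comp (g : E →+* E) ∈ Φ)
  have hA : ∀ Φ g, g ∈ A Φ ↔ φ₀.comp (g : E →+* E) ∈ Φ := fun Φ g => by
    simp only [A, Finset.mem_filter, Finset.mem_univ, true_and]
  have hinj : Function.Injective A := by
    intro Φ Φ' h
    ext φ
    obtain ⟨g, rfl⟩ := (comp_bijectiveC φ₀).2 φ
    change φ₀.comp (g : E →+* E) ∈ Φ ↔ φ₀.comp (g : E →+* E) ∈ Φ'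
    rw [← hA, ← hA, h]
  have hfin : (A '' Degenerate E).Finite := Set.toFinite _
  rw [← Set.ncard_image_of_injective _ hinj, Set.ncard_eq_toFinset_card _ hfin]
  have hodd : finrank ℚ E = 2 * (finrank ℚ E / 2) := by
    have h1 : finrank ℚ E = finrank ℚ (maximalRealSubfield E) *
        finrank (maximalRealSubfield E) E := (finrank_mul_finrank ℚ _ E).symm
    have h2 : finrank (maximalRealSubfield E) E = 2 := Algebra.IsQuadraticExtension.finrank_eq_two _ _
    rw [h2] at h1
    omega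
  refine card_degenerate_le (conj E) conj_mul_conj (finrank ℚ E / 2) ?_ _ ?_
  · rw [← hodd, ← Nat.card_eq_fintype_card]
    exact IsGalois.card_aut_eq_finrank ℚ E
  · intro B hB
    rw [Set.Finite.mem_toFinset] at hB
    obtain ⟨Φ, ⟨hΦ, φ, χ, hχ, hsum⟩, rfl⟩ := hB
    refine ⟨fun g => ?_, χ, hχ, ?_⟩
    · rw [hA, hA, hΦ (φ₀.comp (g : E →+* E))]
      have h1 : ComplexEmbedding.conjugate (φ₀.comp (g : E →+* E)) =
          φ₀.comp ((g * conj E : E ≃ₐ[ℚ] E) : E →+* E) := by
        ext x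
        rw [ComplexEmbedding.conjugate_coe_eq]
        exact (IsCMField.complexEmbedding_complexConj E (φ₀.comp (g : E →+* E)) x).symm
      rw [h1]
    · obtain ⟨h', rfl⟩ := (comp_bijectiveC φ₀).2 φ
      have h2 : ∑ g : E ≃ₐ[ℚ] E, (if (φ₀.comp (h' : E →+* E)).comp (g : E →+* E) ∈ Φ then (1 : ℂ)
          else -1) * χ g = χ h'⁻¹ * csum χ (A Φ) := by
        unfold csum
        rw [Finset.mul_sum, ← Equiv.sum_comp (Equiv.mulLeft h')
          (fun g => χ h'⁻¹ * ((if g ∈ A Φ then (1 : ℂ) else -1) * χ g))]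
        refine Finset.sum_congr rfl fun g _ => ?_
        rw [Equiv.coe_mulLeft, map_mul]
        have h3 : χ h'⁻¹ * χ h' = 1 := by rw [← map_mul, inv_mul_cancel, map_one]
        have h4 : (φ₀.comp (h' : E →+* E)).comp (g : E →+* E) =
            φ₀.comp ((h' * g : E ≃ₐ[ℚ] E) : E →+* E) := rfl
        rw [h4]
        have h5 : (if h' * g ∈ A Φ then (1 : ℂ) else -1) =
            (if φ₀.comp ((h' * g : E ≃ₐ[ℚ] E) : E →+* E) ∈ Φ then (1 : ℂ) else -1) := by
          by_cases h6 : h' * g ∈ A Φ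
          · rw [if_pos h6, if_pos ((hA _ _).1 h6)]
          · rw [if_neg h6, if_neg (fun h7 => h6 ((hA _ _).2 h7))]
        rw [h5]
        linear_combination (-((if φ₀.comp ((h' * g : E ≃ₐ[ℚ] E) : E →+* E) ∈ Φ then (1 : ℂ)
          else -1) * χ g)) * h3
      have h3 : χ h'⁻¹ * csum χ (A Φ) = 0 := by
        rw [← h2]
        exact hsum
      refine (mul_eq_zero.1 h3).resolve_left ?_
      intro h4
      have h5 : χ h'⁻¹ * χ h' = 1 := by rw [← map_mul, inv_mul_cancel, map_one]
      rw [h4, zero_mul] at h5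
      exact zero_ne_one h5

end Pool.Agent.H977R3.AB
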