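import Mathlib
import Pool.Agent.H977R3.AB.Kubota

/-!
# Kernels of odd characters and cyclic CM subfields
-/

set_option linter.unusedSectionVars false

namespace Pool.Agent.H977R3.AB

open NumberField Module MulAction Pool.Agent.H204R3.CM Pool.Agent.H977R3.CM

variable {E : Type*} [Field E] [NumberField E] [IsCMField E]

theorem fixedField_mem [IsAbelianGalois ℚ E] (H : Subgroup (E ≃ₐ[ℚ] E))
    (hH : H ∈ oddKernels (conj E)) : IntermediateField.fixedField H ∈ cyclicCM E := by
  classical
  obtain ⟨hc, g₁, hg₁⟩ := hH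
  let F : IntermediateField ℚ E := IntermediateField.fixedField H
  have _ : IsAbelianGalois ℚ F := IsAbelianGalois.tower_bot ℚ F E
  have _ : IsGalois ℚ F := inferInstance
  have _ : Normal ℚ F := IsGalois.to_normal
  have hF : ∀ x : F, ∀ h ∈ H, h (x : E) = x := by
    intro x h hh
    have h1 := x.2
    rw [IntermediateField.mem_fixedField_iff] at h1
    exact h1 h hh
  refine ⟨⟨⟨AlgEquiv.restrictNormalHom F g₁, fun τ => ?_⟩⟩, fun hreal => hc ?_⟩
  · obtain ⟨g, rfl⟩ := AlgEquiv.restrictNormalHom_surjective (F := ℚ) (K₁ := F) E τ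
    obtain ⟨k, hk⟩ := hg₁ g
    refine ⟨k, ?_⟩
    change (AlgEquiv.restrictNormalHom F g₁) ^ (k : ℤ) = _
    rw [zpow_natCast, ← map_pow]
    ext x
    have h1 : ∀ g' : E ≃ₐ[ℚ] E, ((AlgEquiv.restrictNormalHom F g' x : F) : E) = g' (x : E) :=
      fun g' => AlgEquiv.restrictNormal_commutes g' F x
    rw [h1, h1]
    have h2 : (g * (g₁ ^ k)⁻¹) ((AlgEquiv.restrictNormalHom F (g₁ ^ k) x : F) : E) =
        ((AlgEquiv.restrictNormalHom F (g₁ ^ k) x : F) : E) := hF _ _ hk
    rw [h1, AlgEquiv.mul_apply] at h2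
    have h3 : (g₁ ^ k)⁻¹ ((g₁ ^ k) (x : E)) = x := by
      rw [← AlgEquiv.mul_apply, inv_mul_cancel]
      rfl
    rw [h3] at h2
    exact h2.symm
  · rw [← IntermediateField.fixingSubgroup_fixedField H, IntermediateField.mem_fixingSubgroup_iff]
    intro x hx
    obtain ⟨φ⟩ : Nonempty (E →+* ℂ) := inferInstance
    apply φ.injective
    have h1 := IsCMField.complexEmbedding_complexConj E φ x
    have h2 : ComplexEmbedding.IsReal (φ.comp (algebraMap F E)) :=
      IsTotallyReal.complexEmbedding_isReal _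
    have h3 := RingHom.congr_fun h2 (⟨x, hx⟩ : F)
    rw [ComplexEmbedding.conjugate_coe_eq] at h3
    exact h1.trans h3

theorem ncard_kernels_le [IsAbelianGalois ℚ E] :
    (oddKernels (conj E)).ncard ≤ (cyclicCM E).ncard := by
  have hfin : Finite (IntermediateField ℚ E) :=
    Finite.of_equiv _ (IsGalois.intermediateFieldEquivSubgroup (F := ℚ) (E := E)).symm.toEquiv
  refine Set.ncard_le_ncard_of_injOn IntermediateField.fixedField (fun H hH => fixedField_mem H hH)
    ?_ (Set.toFinite _)
  intro H _ H' _ h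
  have h1 := IntermediateField.fixingSubgroup_fixedField H
  have h2 := IntermediateField.fixingSubgroup_fixedField H'
  rw [← h1, ← h2, h]

/-- The number of degenerate CM types of an abelian CM field. -/
theorem ncard_degenerate_le [IsAbelianGalois ℚ E] :
    (Degenerate E).ncard ≤ (cyclicCM E).ncard *
      (finrank ℚ E / 2).choose (finrank ℚ E / 2 / 2) :=
  ncard_degenerate_le_kernels.trans (Nat.mul_le_mul_right _ ncard_kernels_le)

end Pool.Agent.H977R3.AB
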