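import Mathlib
import Pool.Agent.H977R3.AB.Defs

/-!
# Odd character sums of functions on the embeddings of an abelian CM field
-/

namespace Pool.Agent.H977R3.AB

open NumberField

/-- For every `p`-adic embedding `τ` of the Galois CM field `F` and every odd character `χ` of its
Galois group (`χ = -1` at the complex conjugation) the sum of `u (τ ∘ g) * χ g` does not vanish. -/
def OddSums {p : ℕ} [Fact p.Prime] {F : Type*} [Field F] [NumberField F] [IsCMField F]
    (u : (F →+* PadicAlgCl p) → ℤ) : Prop :=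
  ∀ (τ : F →+* PadicAlgCl p) (χ : (F ≃ₐ[ℚ] F) →* ℂ), χ (conj F) = -1 →
    ∑ g : F ≃ₐ[ℚ] F, (u (τ.comp (g : F →+* F)) : ℂ) * χ g ≠ 0

end Pool.Agent.H977R3.AB
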