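import Mathlib
import Pool.Agent.H977R3.AB.Defs
import Pool.Agent.H977R3.AB.Kubota
import Pool.Agent.H977R3.WN.Quad

/-!
# Galois CM fields whose intersection is totally real are independent
-/

set_option linter.unusedSectionVars false

namespace Pool.Agent.H977R3.AB

open NumberField Module MulAction Pool.Agent.H204R3.CM Pool.Agent.H977R3.CM Pool.Agent.H977R3.WN
  Pool.Agent.H925R2

theorem exists_flip_of_meet {F F' L : Type*} [Field F] [NumberField F] [IsCMField F] [IsGalois ℚ F]
    [Field F'] [NumberField F'] [IsCMField F'] [Field L] [NumberField L] [IsGalois ℚ L]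
    (j : L →+* ℂ) (hmeet : RealMeet F F') (φ₀ : F →+* L) (ψ₀ : F' →+* L) :
    ∃ g : L ≃ₐ[ℚ] L, g • φ₀ = φ₀ ∧ g • ψ₀ = cbar ψ₀ := by
  classical
  obtain ⟨cc, hcc⟩ := exists_gal j (starRingAut : ℂ ≃+* ℂ)
  have hcc1' : ∀ (φ : F' →+* L), cc • φ = cbar φ := by
    intro φ
    ext x
    apply j.injective
    have h1 := RingHom.congr_fun (comp_cbar j φ) x
    rw [ComplexEmbedding.conjugate_coe_eq] at h1
    rw [emb_smul_apply, ← hcc]
    exact h1.symm
  let A : IntermediateField ℚ L := (RingHom.equivRatAlgHom F L φ₀).fieldRange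
  let B : IntermediateField ℚ L := (RingHom.equivRatAlgHom F' L ψ₀).fieldRange
  have hgal : IsGalois ℚ A :=
    IsGalois.of_algEquiv (AlgEquiv.ofInjectiveField (RingHom.equivRatAlgHom F L φ₀))
  have hmem : cc ∈ A.fixingSubgroup ⊔ B.fixingSubgroup := by
    rw [← IntermediateField.fixingSubgroup_fixedField (A.fixingSubgroup ⊔ B.fixingSubgroup),
      IntermediateField.mem_fixingSubgroup_iff]
    intro x hx
    have hA : x ∈ A := by
      have h1 := IntermediateField.fixedField_le
        (le_sup_left : A.fixingSubgroup ≤ A.fixingSubgroup ⊔ B.fixingSubgroup) hx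
      rwa [IsGalois.fixedField_fixingSubgroup] at h1
    have hB : x ∈ B := by
      have h1 := IntermediateField.fixedField_le
        (le_sup_right : B.fixingSubgroup ≤ A.fixingSubgroup ⊔ B.fixingSubgroup) hx
      rwa [IsGalois.fixedField_fixingSubgroup] at h1
    obtain ⟨a, ha⟩ := hA
    obtain ⟨b, hb⟩ := hB
    have ha' : φ₀ a = x := ha
    have hb' : ψ₀ b = x := hb
    have h1 := hmeet (j.comp φ₀) (j.comp ψ₀) a b (by
      change j (φ₀ a) = j (ψ₀ b)
      rw [ha', hb'])
    have h2 : (j x).im = 0 := by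
      rw [← ha']
      exact h1
    apply j.injective
    have h3 : (starRingEnd ℂ) (j x) = j (cc x) := hcc x
    rw [← h3]
    exact Complex.conj_eq_iff_im.2 h2
  have _ : A.fixingSubgroup.Normal := by
    refine @IsGalois.fixingSubgroup_normal_of_isGalois ℚ L _ _ _ A _ ?_
    convert hgal
    exact Subsingleton.elim _ _
  rw [Subgroup.mem_sup_of_normal_left] at hmem
  obtain ⟨g, hg, g', hg', hgg⟩ := hmem
  rw [IntermediateField.mem_fixingSubgroup_iff] at hg hg'
  refine ⟨g, ?_, ?_⟩
  · ext x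
    exact hg (φ₀ x) ⟨x, rfl⟩
  · rw [← hcc1' ψ₀, ← hgg, mul_smul]
    congr 1
    ext x
    exact (hg' (ψ₀ x) ⟨x, rfl⟩).symm

/-- Two CM fields, one of them Galois over the rational numbers, whose images under complex
embeddings have only real numbers in common, are independent. -/
theorem indep_of_meet {F F' : Type} [Field F] [NumberField F] [IsCMField F] [IsGalois ℚ F]
    [Field F'] [NumberField F'] [IsCMField F'] (hmeet : RealMeet F F') : Indep F F' := by
  obtain ⟨L, hL1, hL2, j, h⟩ := exists_galois (Two F F')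
  have h1 : ∀ ψ : F →+* ℂ, ∃ φ : F →+* L, j.comp φ = ψ := h true
  have h2 : ∀ ψ : F' →+* ℂ, ∃ φ : F' →+* L, j.comp φ = ψ := h false
  intro φ ψ
  obtain ⟨φ₀, rfl⟩ := h1 φ
  obtain ⟨ψ₀, rfl⟩ := h2 ψ
  obtain ⟨g, hg1, hg2⟩ := exists_flip_of_meet j hmeet φ₀ ψ₀
  obtain ⟨σ, hσ⟩ := exists_aut j (g : L ≃+* L)
  refine ⟨σ, fun x => ?_, fun y => ?_⟩
  · have h3 := RingHom.congr_fun hg1 x
    change σ (j (φ₀ x)) = j (φ₀ x)
    rw [hσ]
    exact congrArg j h3
  · have h3 := RingHom.congr_fun hg2 y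
    have h4 := RingHom.congr_fun (comp_cbar j ψ₀) y
    rw [ComplexEmbedding.conjugate_coe_eq] at h4
    change σ (j (ψ₀ y)) = _
    rw [hσ]
    exact (congrArg j h3).trans h4

end Pool.Agent.H977R3.AB
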