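import Mathlib
import Pool.Agent.H977R3.AB.Defs
import Pool.Agent.H977R3.WN.Defs

/-!
# Weil numbers in abelian CM fields whose slopes have nonvanishing odd character sums
-/

namespace Pool.Agent.H977R3.AB

open NumberField Pool.Agent.H977R3.WN

/-- The field `F` of the Weil number `π` is abelian over the rational numbers, and for every
embedding `τ` of `F` into an algebraic closure of `ℚ_p` and every odd character `χ` of the Galois
group of `F` the sum of the numbers `u (τ ∘ g) * χ g` does not vanish; here `u = N * (2 * s - 1)`,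
`s` the slope, is integral. -/
def OddSumsNonzero (p a : ℕ) [Fact p.Prime] {F : Type*} [Field F] [NumberField F] [IsCMField F]
    (π : F) : Prop :=
  IsAbelianGalois ℚ F ∧ ∃ (N : ℕ) (u : (F →+* PadicAlgCl p) → ℤ), 0 < N ∧ HasSlopes p a π N u ∧
    ∀ (τ : F →+* PadicAlgCl p) (χ : (F ≃ₐ[ℚ] F) →* ℂ), χ (conj F) = -1 →
      ∑ g : F ≃ₐ[ℚ] F, (u (τ.comp (g : F →+* F)) : ℂ) * χ g ≠ 0

end Pool.Agent.H977R3.AB
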