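import Mathlib
import Pool.Agent.H977R3.AB.SlopeDefs
import Pool.Agent.H977R3.AB.Kubota
import Pool.Agent.H977R3.AB.Meet
import Pool.Agent.H977R3.WN.Main

/-!
# Weil numbers in abelian CM fields
-/

set_option linter.unusedSectionVars false

namespace Pool.Agent.H977R3.AB

open NumberField Module MulAction Pool.Agent.H204R3.CM Pool.Agent.H204R3.SP Pool.Agent.H204R3.GP
  Pool.Agent.H977R3.CM Pool.Agent.H977R3.WN IntermediateField

variable {E : Type*} [Field E] [NumberField E] [IsCMField E]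

/-- A function whose odd character sums do not vanish satisfies no relation. -/
theorem single_abelian_core [IsAbelianGalois ℚ E] {L : Type*} [Field L] [NumberField L]
    [IsGalois ℚ L] (j : L →+* ℂ) (h : ∀ ψ : E →+* ℂ, ∃ φ : E →+* L, j.comp φ = ψ)
    (e : (E →+* L) → ℤ)
    (hnd : ∀ (φ₀ : E →+* L) (χ : (E ≃ₐ[ℚ] E) →* ℂ), χ (conj E) = -1 →
      ∑ g : E ≃ₐ[ℚ] E, (e (φ₀.comp (g : E →+* E)) : ℂ) * χ g ≠ 0) : Single e := by
  classical
  intro c hc hrel φ₀
  let G := E ≃ₐ[ℚ] E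
  let _ : CommGroup G :=
    { (inferInstance : Group (E ≃ₐ[ℚ] E)) with
      mul_comm := fun x y => (inferInstance : IsMulCommutative (E ≃ₐ[ℚ] E)).is_comm.comm x y }
  let ε : G → ℤ := fun m => e (φ₀.comp (m : E →+* E))
  let cE : G → ℤ := fun k => c (φ₀.comp (k : E →+* E))
  have hrelE : ∀ h' : G, ∑ k : G, cE k * ε (h' * k) = 0 := by
    intro h'
    obtain ⟨g, hg⟩ := exists_smul_eq (L ≃ₐ[ℚ] L) φ₀ (φ₀.comp (h' : E →+* E))
    have h1 := hrel g
    rw [← (Equiv.ofBijective _ (comp_bijective j h φ₀)).sum_comp] at h1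
    rw [← h1]
    refine Finset.sum_congr rfl fun k _ => ?_
    have h2 : g • (φ₀.comp (k : E →+* E)) = φ₀.comp ((h' * k : G) : E →+* E) := by
      ext x
      have h3 := RingHom.congr_fun hg (k x)
      exact h3
    change cE k * ε (h' * k) = c (φ₀.comp (k : E →+* E)) * e (g • (φ₀.comp (k : E →+* E)))
    rw [h2]
  have hcc : ∀ k : G, cE (k * conj E) = -cE k := by
    intro k
    have h1 : φ₀.comp ((k * conj E : G) : E →+* E) = cbar (φ₀.comp (k : E →+* E)) := by
      ext x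
      rfl
    change c (φ₀.comp ((k * conj E : G) : E →+* E)) = _
    rw [h1, hc]
  have key : ∀ χ : G →* ℂ, ∑ k : G, (cE k : ℂ) * χ k⁻¹ = 0 := by
    intro χ
    have h1 : χ (conj E) * χ (conj E) = 1 := by
      rw [← map_mul, conj_mul_conj, map_one]
    rcases mul_self_eq_one_iff.1 h1 with h2 | h2
    · have h3 : ∑ k : G, (cE k : ℂ) * χ k⁻¹ = -∑ k : G, (cE k : ℂ) * χ k⁻¹ := by
        conv_lhs => rw [← Equiv.sum_comp (Equiv.mulRight (conj E))]
        rw [← Finset.sum_neg_distrib]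
        refine Finset.sum_congr rfl fun k _ => ?_
        have h4 : χ (k * conj E)⁻¹ = χ k⁻¹ := by
          rw [mul_inv_rev, map_mul]
          have h5 : (conj E)⁻¹ = conj E := inv_eq_of_mul_eq_one_right conj_mul_conj
          rw [h5, h2, one_mul]
        rw [Equiv.coe_mulRight, hcc, h4]
        push_cast
        ring
      have h4 : (2 : ℂ) * ∑ k : G, (cE k : ℂ) * χ k⁻¹ = 0 := by linear_combination h3
      exact (mul_eq_zero.1 h4).resolve_left two_ne_zero
    · have h3 : ∑ m : G, ((ε m : ℤ) : ℂ) * χ m ≠ 0 := hnd φ₀ χ h2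
      have h4 : ∑ h' : G, χ h' * ∑ k : G, (cE k : ℂ) * ((ε (h' * k) : ℤ) : ℂ) = 0 := by
        refine Finset.sum_eq_zero fun h' _ => ?_
        have h5 := hrelE h'
        have h6 : ∑ k : G, (cE k : ℂ) * ((ε (h' * k) : ℤ) : ℂ) = 0 := by exact_mod_cast h5
        rw [h6, mul_zero]
      have h5 : ∑ h' : G, χ h' * ∑ k : G, (cE k : ℂ) * ((ε (h' * k) : ℤ) : ℂ) =
          (∑ k : G, (cE k : ℂ) * χ k⁻¹) * ∑ m : G, ((ε m : ℤ) : ℂ) * χ m := by
        rw [Finset.sum_mul]
        simp only [Finset.mul_sum]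
        rw [Finset.sum_comm]
        refine Finset.sum_congr rfl fun k _ => ?_
        rw [← Equiv.sum_comp (Equiv.mulRight k)
          (fun m : G => (cE k : ℂ) * χ k⁻¹ * (((ε m : ℤ) : ℂ) * χ m))]
        refine Finset.sum_congr rfl fun h' _ => ?_
        rw [Equiv.coe_mulRight, map_mul]
        have h6 : χ k⁻¹ * χ k = 1 := by rw [← map_mul, inv_mul_cancel, map_one]
        linear_combination (-(χ h' * (cE k : ℂ) * ((ε (h' * k) : ℤ) : ℂ))) * h6
      rw [h5] at h4
      exact (mul_eq_zero.1 h4).resolve_right h3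
  have h1 := complete (G := G) (fun k => (cE k : ℂ)) key 1
  have h2 : cE 1 = 0 := by exact_mod_cast h1
  exact h2

/-- Tate forms of an abelian variety with one Frobenius element whose eigenvalues generate abelian
fields. -/
theorem tate_of_oddSums {k : Type*} [Field k] [CharZero k] {V : Type*} [AddCommGroup V]
    [Module k V] [FiniteDimensional k V]
    {p : ℕ} [Fact p.Prime] {a : ℕ} (ha : 0 < a)
    {ι : Type*} [Fintype ι] {F : ι → Type} [∀ i, Field (F i)] [∀ i, NumberField (F i)]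
    [∀ i, IsCMField (F i)] {π : ∀ i, F i} (hgen : ∀ i, ℚ⟮π i⟯ = ⊤)
    (hw : ∀ i, π i * IsCMField.complexConj (F i) (π i) = (p : F i) ^ a)
    (hodd : ∀ i, OddSumsNonzero p a (π i)) (hmeet : ∀ i i', i ≠ i' → RealMeet (F i) (F i'))
    {Γ : Type*} [Group Γ] (ρ : Representation k Γ V) (χ : Γ →* k)
    (ω : V →ₗ[k] V →ₗ[k] k) (halt : ∀ v, ω v v = 0) (hnd : ∀ u, (∀ v, ω v u = 0) → u = 0)
    (hωρ : ∀ s u v, ω (ρ s u) (ρ s v) = χ s * ω u v)
    (hss : ∀ Δ : Subgroup Γ, Δ.FiniteIndex → SemiUnder (ρ '' (Δ : Set Γ)))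
    (γ : Γ) (hχ : χ γ = (p : k) ^ a)
    (hγ : (ρ γ).charpoly = ∏ i, (minpoly ℚ (π i)).map (algebraMap ℚ k))
    {m : ℕ} (φ : MultilinearMap k (fun _ : Fin m × Fin 2 => V) k) (hφ : IsTate ρ χ m φ) :
    φ ∈ Submodule.span k (PT ρ χ m) := by
  have hab := fun i => (hodd i).1
  have hex := fun i => (hodd i).2
  choose N u hN hu hs using hex
  refine tate_of_free ha hgen hw hN hu ?_ ρ χ ω halt hnd hωρ hss γ hχ hγ φ hφ
  intro L _ _ j h jp
  have _ : ∀ i, IsAbelianGalois ℚ (F i) := hab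
  exact free_of_single j (fun i i' hii => indep_of_meet (hmeet i i' hii))
    (fun i φ => slopes_cbar ha (hw i) (hu i) jp φ)
    (fun i => single_abelian_core j (h i) _ (fun φ₀ χ hχ => hs i (jp.comp φ₀) χ hχ))

end Pool.Agent.H977R3.AB
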