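import Mathlib
import Pool.Agent.H977R3.AB.FiniteDefs
import Pool.Agent.H977R3.AB.Slopes
import Pool.Agent.H977R3.WN.FiniteMain

/-!
# Tate classes over finite fields: abelian CM fields
-/

set_option linter.unusedSectionVars false

namespace Pool.Agent.H977R3.AB

open NumberField Module Pool.Agent.H204R3.CM Pool.Agent.H977R3.CM Pool.Agent.H977R3.WN
  Pool.Agent.H485R3

theorem finite_abelian {I : Type} [Fintype I] (p : ℕ) [Fact p.Prime] (K : I → Type)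
    [∀ i, Field (K i)] [∀ i, NumberField (K i)] [∀ i, IsCMField (K i)]
    [∀ i, IsAbelianGalois ℚ (K i)]
    (hmeet : ∀ i i', i ≠ i' → RealMeet (K i) (K i'))
    (m : I → ℕ) (π : ∀ i, K i) (hgen : ∀ i, IntermediateField.adjoin ℚ {π i} = ⊤)
    (hweil : ∀ i, ∀ φ : K i →+* ℂ, ‖φ (π i)‖ ^ 2 = (p : ℝ) ^ m i)
    (κ : I → ℚ) (hκ : ∀ i, κ i ≠ 0) (u : ∀ i, (K i →+* PadicAlgCl p) → ℤ)
    (hslope : ∀ i, ∀ τ : K i →+* PadicAlgCl p,
      2 * (- Real.logb p ‖τ (π i)‖) - m i = (κ i : ℝ) * u i τ)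
    (hodd : ∀ i, OddSums (u i))
    {Ω : Type*} [Field Ω] [IsAlgClosed Ω] [CharZero Ω]
    (V : I → Type*) [∀ i, AddCommGroup (V i)] [∀ i, Module Ω (V i)]
    [∀ i, FiniteDimensional Ω (V i)] (F : ∀ i, V i →ₗ[Ω] V i)
    (hF : ∀ i, Submodule.span Ω {v : V i | ∃ σ : K i →+* Ω, F i v = σ (π i) • v} = ⊤)
    {n : ℕ} (t : Fin n → I) (s : ℕ) (hs : 0 < s) (c : Ω) (hc : c ^ 2 = ∏ l, (p : Ω) ^ m (t l))
    (φ : MultilinearMap Ω (fun l => V (t l)) Ω)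
    (hφ : ∀ v : ∀ l, V (t l), φ (fun l => (F (t l) ^ s) (v l)) = c ^ s * φ v) :
    φ ∈ Submodule.span Ω {ψ | IsProductOfPairings V F (fun i => (p : Ω) ^ m i) t ψ} := by
  have hq : ∀ i, (0 : ℚ) < (p : ℚ) ^ m i :=
    fun i => pow_pos (by exact_mod_cast (Fact.out : p.Prime).pos) _
  have hp1 : (1 : ℝ) < p := by exact_mod_cast (Fact.out : p.Prime).one_lt
  have hcast : ∀ i, (((p : ℚ) ^ m i : ℚ) : Ω) = (p : Ω) ^ m i := by
    intro i
    push_cast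
    rfl
  have h1 : ∀ i, - Real.logb p ‖((((p : ℚ) ^ m i : ℚ)) : PadicAlgCl p)‖ = m i := by
    intro i
    rw [Pool.Agent.H925R2.norm_pow_cast, Real.logb_inv, Real.logb_pow,
      Real.logb_self_eq_one hp1]
    ring
  have h2 : (fun i => (p : Ω) ^ m i) = fun i => (((p : ℚ) ^ m i : ℚ) : Ω) :=
    funext fun i => (hcast i).symm
  have hweil' : ∀ i, ∀ φ : K i →+* ℂ, ‖φ (π i)‖ ^ 2 = (((p : ℚ) ^ m i : ℚ) : ℝ) :=
    fun i φ => by rw [hweil i φ]; push_cast; rfl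
  have hslope' : ∀ i, ∀ τ : K i →+* PadicAlgCl p, 2 * (- Real.logb p ‖τ (π i)‖) -
      (- Real.logb p ‖((((p : ℚ) ^ m i : ℚ)) : PadicAlgCl p)‖) = (κ i : ℝ) * u i τ :=
    fun i τ => by rw [h1]; exact hslope i τ
  rw [h2]
  refine main_free p K (fun i => (p : ℚ) ^ m i) hq π hgen hweil' κ hκ u hslope' ?_ V F hF t
    s hs c (by rw [hc]; exact Finset.prod_congr rfl fun l _ => (hcast _).symm) φ hφ
  intro L _ _ j h jp
  exact free_of_single j (fun i i' hii => indep_of_meet (hmeet i i' hii))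
    (fun i φ => anti_of_slopes (hq i) (hweil' i) (hκ i) (hslope' i) (jp.comp φ))
    (fun i => single_abelian_core j (h i) _ (fun φ₀ χ hχ => hodd i (jp.comp φ₀) χ hχ))

end Pool.Agent.H977R3.AB
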