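import Mathlib
import Pool.Agent.H977R3.AB.Kernel

/-!
# Weighted half systems in a finite group and odd characters
-/

namespace Pool.Agent.H977R3.AB

open Finset Polynomial

variable {G : Type*} [Group G] [Fintype G] [DecidableEq G]

/-- The sum of the values of the character `χ` with the weights `w` and the signs of `A`. -/
noncomputable def wsum (w : G → ℤ) (χ : G →* ℂ) (A : Finset G) : ℂ :=
  ∑ g, ((if g ∈ A then 1 else -1) * (w g : ℂ)) * χ g

variable (c : G) (hc : c * c = 1)

include hc in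
/-- At most `n.choose (n / 2)` half systems have vanishing weighted character sum, `2 n` the order
of the group. -/
theorem wcard_le (w : G → ℤ) (hw : ∀ g, 0 < w g) (hwc : ∀ g, w (g * c) = w g) (χ : G →* ℂ)
    (hχ : χ c = -1) (n : ℕ) (hn : Fintype.card G = 2 * n)
    (𝒜 : Finset (Finset G)) (h𝒜 : ∀ A ∈ 𝒜, (∀ g, g ∈ A ↔ g * c ∉ A) ∧ wsum w χ A = 0) :
    𝒜.card ≤ n.choose (n / 2) := by
  classical
  obtain ⟨t, ht⟩ := exists_functional χ
  let a : G → ℝ := fun g => w g * ((χ g).re - t * (χ g).im)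
  have hw0 : ∀ g, (w g : ℝ) ≠ 0 := fun g => by exact_mod_cast (hw g).ne'
  have ha0 : ∀ g, a g ≠ 0 := fun g => mul_ne_zero (hw0 g) (ht g)
  have hac : ∀ g, a (g * c) = -a g := by
    intro g
    simp only [a, map_mul, hχ, hwc]
    simp only [mul_neg, mul_one, Complex.neg_re, Complex.neg_im]
    ring
  let P : Finset G := univ.filter (fun g => 0 < a g)
  have hP : ∀ g, g ∈ P ↔ g * c ∉ P := by
    intro g
    simp only [P, mem_filter, mem_univ, true_and, hac, not_lt]
    constructor
    · intro h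
      linarith
    · intro h
      exact lt_of_le_of_ne (by linarith) (ha0 g).symm
  have hcc : ∀ g : G, g * c * c = g := fun g => by rw [mul_assoc, hc, mul_one]
  have hPc : P.card = n := by
    have h1 : Fintype.card G = P.card + Pᶜ.card := by
      rw [Finset.card_compl, Nat.add_sub_cancel' (Finset.card_le_univ P)]
    have h2 : Pᶜ.card = P.card := by
      refine Finset.card_nbij' (fun g => g * c) (fun g => g * c) ?_ ?_ ?_ ?_
      · intro g hg
        rw [mem_coe, mem_compl] at hg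
        rw [mem_coe]
        by_contra h3
        exact hg ((hP g).2 h3)
      · intro g hg
        rw [mem_coe] at hg
        rw [mem_coe, mem_compl]
        exact (hP g).1 hg
      · intro g _
        exact hcc g
      · intro g _
        exact hcc g
    omega
  -- real sums
  have hsum : ∀ A ∈ 𝒜, ∑ g, (if g ∈ A then (1 : ℝ) else -1) * a g = 0 := by
    intro A hA
    have h1 := (h𝒜 A hA).2
    have h2 : ∑ g, (if g ∈ A then (1 : ℝ) else -1) * a g =
        (wsum w χ A).re - t * (wsum w χ A).im := by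
      unfold wsum
      rw [Complex.re_sum, Complex.im_sum, Finset.mul_sum, ← Finset.sum_sub_distrib]
      refine Finset.sum_congr rfl fun g _ => ?_
      have h3 : ((if g ∈ A then (1 : ℂ) else -1) * (w g : ℂ)) =
          (((if g ∈ A then (1 : ℝ) else -1) * (w g : ℝ) : ℝ) : ℂ) := by
        by_cases hg : g ∈ A
        · rw [if_pos hg, if_pos hg]
          push_cast
          ring
        · rw [if_neg hg, if_neg hg]
          push_cast
          ring
      rw [h3, Complex.re_ofReal_mul, Complex.im_ofReal_mul]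
      simp only [a]
      ring
    rw [h2, h1]
    simp
  have hsumP : ∀ A ∈ 𝒜, ∑ g ∈ P, (if g ∈ A then (1 : ℝ) else -1) * a g = 0 := by
    intro A hA
    have h1 := hsum A hA
    have h2 : ∑ g ∈ Pᶜ, (if g ∈ A then (1 : ℝ) else -1) * a g =
        ∑ g ∈ P, (if g ∈ A then (1 : ℝ) else -1) * a g := by
      refine Finset.sum_nbij' (fun g => g * c) (fun g => g * c) ?_ ?_ ?_ ?_ ?_
      · intro g hg
        rw [mem_compl] at hg
        by_contra h3
        exact hg ((hP g).2 h3)
      · intro g hg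
        rw [mem_compl]
        exact (hP g).1 hg
      · intro g _
        exact hcc g
      · intro g _
        exact hcc g
      · intro g _
        change _ = (if g * c ∈ A then (1 : ℝ) else -1) * a (g * c)
        rw [hac]
        have h3 := (h𝒜 A hA).1 g
        by_cases h4 : g ∈ A
        · rw [if_pos h4, if_neg (h3.1 h4)]
          ring
        · have h5 : g * c ∈ A := by
            by_contra h6
            exact h4 (h3.2 h6)
          rw [if_neg h4, if_pos h5]
          ring
    have h3 := Finset.sum_add_sum_compl P (fun g => (if g ∈ A then (1 : ℝ) else -1) * a g)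
    rw [h1, h2] at h3
    linarith
  -- the antichain
  let F : Finset G → Finset P := fun A => univ.filter (fun g : P => (g : G) ∈ A)
  have hFmem : ∀ A (g : P), g ∈ F A ↔ (g : G) ∈ A := fun A g => by
    simp only [F, mem_filter, mem_univ, true_and]
  have hinj : Set.InjOn F (𝒜 : Set (Finset G)) := by
    intro A hA B hB hAB
    rw [mem_coe] at hA hB
    have h1 : ∀ g, g ∈ P → (g ∈ A ↔ g ∈ B) := by
      intro g hg
      rw [← hFmem A ⟨g, hg⟩, ← hFmem B ⟨g, hg⟩, hAB]
    ext g
    by_cases hg : g ∈ P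
    · exact h1 g hg
    · have hg' : g * c ∈ P := by
        by_contra h2
        exact hg ((hP g).2 h2)
      have h2 := h1 _ hg'
      rw [(h𝒜 A hA).1 g, (h𝒜 B hB).1 g, h2]
  have hanti : IsAntichain (· ⊆ ·) ((𝒜.image F : Finset (Finset P)) : Set (Finset P)) := by
    rintro _ hA' _ hB' hne hsub
    rw [mem_coe, Finset.mem_image] at hA' hB'
    obtain ⟨A, hA, rfl⟩ := hA'
    obtain ⟨B, hB, rfl⟩ := hB'
    have h1 : ∀ g ∈ P, g ∈ A → g ∈ B := by
      intro g hg hgA
      exact (hFmem B ⟨g, hg⟩).1 (hsub ((hFmem A ⟨g, hg⟩).2 hgA))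
    obtain ⟨g₀, hg₀B, hg₀A⟩ : ∃ g₀ : P, g₀ ∈ F B ∧ g₀ ∉ F A := by
      by_contra hcon
      push Not at hcon
      exact hne (Finset.Subset.antisymm hsub hcon)
    rw [hFmem] at hg₀B hg₀A
    have h2 : ∑ g ∈ P, (if g ∈ A then (1 : ℝ) else -1) * a g <
        ∑ g ∈ P, (if g ∈ B then (1 : ℝ) else -1) * a g := by
      refine Finset.sum_lt_sum ?_ ⟨g₀, g₀.2, ?_⟩
      · intro g hg
        have hag : 0 < a g := (mem_filter.1 hg).2
        by_cases h3 : g ∈ A
        · rw [if_pos h3, if_pos (h1 g hg h3)]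
        · rw [if_neg h3]
          split_ifs <;> linarith
      · have hag : 0 < a g₀ := (mem_filter.1 g₀.2).2
        rw [if_neg hg₀A, if_pos hg₀B]
        linarith
    rw [hsumP A hA, hsumP B hB] at h2
    exact lt_irrefl _ h2
  have h3 := hanti.sperner
  rw [Finset.card_image_of_injOn hinj, Fintype.card_coe, hPc] at h3
  exact h3

theorem wsum_eq_zero_of_ker (w : G → ℤ) (χ χ' : G →* ℂ) (hk : ∀ g, χ g = 1 ↔ χ' g = 1)
    (A : Finset G) (h : wsum w χ A = 0) : wsum w χ' A = 0 := by
  classical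
  obtain ⟨g₁, hg₁⟩ := exists_generator χ
  choose k hk1 using hg₁
  have hne : ∀ g, χ g * χ g⁻¹ = 1 := fun g => by rw [← map_mul, mul_inv_cancel, map_one]
  have hk2 : ∀ g, χ' g = χ' g₁ ^ k g := by
    intro g
    have h1 : χ (g * (g₁ ^ k g)⁻¹) = 1 := by
      rw [map_mul, hk1 g, ← map_pow, hne]
    rw [hk, map_mul] at h1
    have h2 : χ' (g₁ ^ k g)⁻¹ * χ' (g₁ ^ k g) = 1 := by
      rw [← map_mul, inv_mul_cancel, map_one]
    have h3 : χ' g * (χ' (g₁ ^ k g)⁻¹ * χ' (g₁ ^ k g)) = χ' (g₁ ^ k g) := by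
      rw [← mul_assoc, h1, one_mul]
    rw [h2, mul_one, map_pow] at h3
    exact h3
  let P : ℚ[X] := ∑ g, C ((if g ∈ A then (1 : ℚ) else -1) * (w g : ℚ)) * X ^ k g
  have haeval : ∀ (χ'' : G →* ℂ), (∀ g, χ'' g = χ'' g₁ ^ k g) →
      aeval (χ'' g₁) P = wsum w χ'' A := by
    intro χ'' hχ''
    simp only [P, map_sum, map_mul, aeval_C, map_pow, aeval_X, wsum]
    refine Finset.sum_congr rfl fun g _ => ?_
    rw [← hχ'' g, map_intCast]
    by_cases hg : g ∈ A
    · rw [if_pos hg, if_pos hg, map_one]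
    · rw [if_neg hg, if_neg hg, map_neg, map_one]
  have hfin : IsOfFinOrder (χ g₁) := by
    rw [isOfFinOrder_iff_pow_eq_one]
    exact ⟨Fintype.card G, Fintype.card_pos, by rw [← map_pow, pow_card_eq_one, map_one]⟩
  have hpos : 0 < orderOf (χ g₁) := hfin.orderOf_pos
  have hord : orderOf (χ' g₁) = orderOf (χ g₁) := by
    rw [orderOf_eq_orderOf_iff]
    intro n
    rw [← map_pow, ← map_pow, hk]
  have h1 : IsPrimitiveRoot (χ g₁) (orderOf (χ g₁)) := IsPrimitiveRoot.orderOf _
  have h2 : IsPrimitiveRoot (χ' g₁) (orderOf (χ g₁)) := by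
    rw [← hord]
    exact IsPrimitiveRoot.orderOf _
  have h3 : minpoly ℚ (χ g₁) = minpoly ℚ (χ' g₁) := by
    rw [← cyclotomic_eq_minpoly_rat h1 hpos, ← cyclotomic_eq_minpoly_rat h2 hpos]
  have h4 : minpoly ℚ (χ g₁) ∣ P := minpoly.dvd ℚ _ (by rw [haeval χ hk1]; exact h)
  rw [h3] at h4
  obtain ⟨R, hR⟩ := h4
  rw [← haeval χ' hk2, hR, map_mul, minpoly.aeval, zero_mul]

/-- The number of half systems for which some weighted odd character sum vanishes. -/
theorem wcard_degenerate_le (hc : c * c = 1) (w : G → ℤ) (hw : ∀ g, 0 < w g)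
    (hwc : ∀ g, w (g * c) = w g) (n : ℕ) (hn : Fintype.card G = 2 * n)
    (𝒜 : Finset (Finset G))
    (h𝒜 : ∀ A ∈ 𝒜, (∀ g, g ∈ A ↔ g * c ∉ A) ∧ ∃ χ : G →* ℂ, χ c = -1 ∧ wsum w χ A = 0) :
    𝒜.card ≤ (oddKernels c).ncard * n.choose (n / 2) := by
  classical
  have hfinK : (oddKernels c).Finite := Set.toFinite _
  choose χ hχ using fun A : 𝒜 => (h𝒜 A.1 A.2).2
  let K : Finset G → Subgroup G := fun A => if h : A ∈ 𝒜 then (χ ⟨A, h⟩).ker else ⊤
  have hK : ∀ A ∈ 𝒜, K A ∈ hfinK.toFinset := by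
    intro A hA
    rw [Set.Finite.mem_toFinset]
    simp only [K, dif_pos hA]
    exact ker_mem_oddKernels c _ (hχ ⟨A, hA⟩).1
  have h1 : 𝒜.card ≤ hfinK.toFinset.card * n.choose (n / 2) := by
    rw [Finset.card_eq_sum_card_fiberwise (fun A hA => hK A hA)]
    refine (Finset.sum_le_card_nsmul _ _ (n.choose (n / 2)) ?_).trans (by rw [smul_eq_mul])
    intro H _
    by_cases hne : (𝒜.filter (fun A => K A = H)).Nonempty
    · obtain ⟨A₀, hA₀⟩ := hne
      rw [Finset.mem_filter] at hA₀
      have hKA₀ : (χ ⟨A₀, hA₀.1⟩).ker = H := by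
        have := hA₀.2
        simp only [K, dif_pos hA₀.1] at this
        exact this
      refine wcard_le c hc w hw hwc (χ ⟨A₀, hA₀.1⟩) (hχ ⟨A₀, hA₀.1⟩).1 n hn _ ?_
      intro A hA
      rw [Finset.mem_filter] at hA
      refine ⟨(h𝒜 A hA.1).1, ?_⟩
      have hKA : (χ ⟨A, hA.1⟩).ker = H := by
        have := hA.2
        simp only [K, dif_pos hA.1] at this
        exact this
      refine wsum_eq_zero_of_ker w (χ ⟨A, hA.1⟩) _ (fun g => ?_) A (hχ ⟨A, hA.1⟩).2
      rw [← MonoidHom.mem_ker, ← MonoidHom.mem_ker, hKA, hKA₀]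
    · rw [Finset.not_nonempty_iff_eq_empty] at hne
      rw [hne, Finset.card_empty]
      exact Nat.zero_le _
  rwa [← Set.ncard_eq_toFinset_card _ hfinK] at h1

end Pool.Agent.H977R3.AB
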