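import Mathlib
import Pool.Agent.H977R3.AB.WCount
import Pool.Agent.H977R3.AB.Fields
import Pool.Agent.H977R3.AB.FiniteDefs

/-!
# The number of sign patterns with a vanishing odd character sum
-/

set_option linter.unusedSectionVars false

namespace Pool.Agent.H977R3.AB

open NumberField Module MulAction Pool.Agent.H204R3.CM Pool.Agent.H977R3.CM

variable {E : Type*} [Field E] [NumberField E] [IsCMField E] {p : ℕ} [Fact p.Prime]

theorem comp_bijectiveP [IsGalois ℚ E] (φ₀ : E →+* PadicAlgCl p) :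
    Function.Bijective (fun g : E ≃ₐ[ℚ] E => φ₀.comp (g : E →+* E)) := by
  classical
  rw [Fintype.bijective_iff_injective_and_card]
  refine ⟨comp_injective' φ₀, ?_⟩
  rw [Embeddings.card, ← Nat.card_eq_fintype_card]
  exact IsGalois.card_aut_eq_finrank ℚ E

/-- The number of functions `u` with given absolute values `w` and opposite signs at conjugate
embeddings for which some odd character sum vanishes. -/
theorem ncard_not_oddSums_le [IsAbelianGalois ℚ E] (w : (E →+* PadicAlgCl p) → ℤ)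
    (hw : ∀ τ, 0 < w τ) (hwc : ∀ τ, w (τ.comp (conj E : E →+* E)) = w τ) :
    {u : (E →+* PadicAlgCl p) → ℤ | (∀ τ, |u τ| = w τ) ∧
      (∀ τ, u (τ.comp (conj E : E →+* E)) = -u τ) ∧ ¬ OddSums u}.ncard ≤
      (cyclicCM E).ncard * (finrank ℚ E / 2).choose (finrank ℚ E / 2 / 2) := by
  classical
  obtain ⟨φ₀⟩ : Nonempty (E →+* PadicAlgCl p) :=
    ⟨((IsAlgClosed.lift : E →ₐ[ℚ] PadicAlgCl p) : E →+* PadicAlgCl p)⟩
  set U : Set ((E →+* PadicAlgCl p) → ℤ) := {u | (∀ τ, |u τ| = w τ) ∧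
      (∀ τ, u (τ.comp (conj E : E →+* E)) = -u τ) ∧ ¬ OddSums u} with hU
  let A : ((E →+* PadicAlgCl p) → ℤ) → Finset (E ≃ₐ[ℚ] E) := fun u =>
    Finset.univ.filter (fun g => 0 < u (φ₀.comp (g : E →+* E)))
  have hA : ∀ u g, g ∈ A u ↔ 0 < u (φ₀.comp (g : E →+* E)) := fun u g => by
    simp only [A, Finset.mem_filter, Finset.mem_univ, true_and]
  have hval : ∀ u ∈ U, ∀ g : E ≃ₐ[ℚ] E, u (φ₀.comp (g : E →+* E)) =
      (if g ∈ A u then 1 else -1) * w (φ₀.comp (g : E →+* E)) := by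
    rintro u ⟨h1, -, -⟩ g
    have h2 := h1 (φ₀.comp (g : E →+* E))
    have h3 := hw (φ₀.comp (g : E →+* E))
    by_cases h4 : g ∈ A u
    · rw [if_pos h4, one_mul, ← h2, abs_of_pos ((hA u g).1 h4)]
    · rw [if_neg h4, neg_one_mul, ← h2]
      rw [hA, not_lt] at h4
      rw [abs_of_nonpos h4, neg_neg]
  have hinj : Set.InjOn A U := by
    intro u hu u' hu' h
    funext τ
    obtain ⟨g, rfl⟩ := (comp_bijectiveP φ₀).2 τ
    change u (φ₀.comp (g : E →+* E)) = u' (φ₀.comp (g : E →+* E))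
    rw [hval u hu, hval u' hu', h]
  have hfin : (A '' U).Finite := Set.toFinite _
  rw [← Set.ncard_image_of_injOn hinj, Set.ncard_eq_toFinset_card _ hfin]
  have hodd : finrank ℚ E = 2 * (finrank ℚ E / 2) := by
    have h1 : finrank ℚ E = finrank ℚ (maximalRealSubfield E) *
        finrank (maximalRealSubfield E) E := (finrank_mul_finrank ℚ _ E).symm
    have h2 : finrank (maximalRealSubfield E) E = 2 := Algebra.IsQuadraticExtension.finrank_eq_two _ _
    rw [h2] at h1
    omega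
  refine (wcard_degenerate_le (conj E) conj_mul_conj (fun g => w (φ₀.comp (g : E →+* E)))
    (fun g => hw _) (fun g => ?_) (finrank ℚ E / 2) ?_ _ ?_).trans
    (Nat.mul_le_mul_right _ ncard_kernels_le)
  · exact hwc (φ₀.comp (g : E →+* E))
  · rw [← hodd, ← Nat.card_eq_fintype_card]
    exact IsGalois.card_aut_eq_finrank ℚ E
  · intro B hB
    rw [Set.Finite.mem_toFinset] at hB
    obtain ⟨u, hu, rfl⟩ := hB
    have hu' := hu
    obtain ⟨-, hanti, hno⟩ := hu
    refine ⟨fun g => ?_, ?_⟩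
    · rw [hA, hA]
      have h1 : φ₀.comp ((g * conj E : E ≃ₐ[ℚ] E) : E →+* E) =
          (φ₀.comp (g : E →+* E)).comp (conj E : E →+* E) := rfl
      rw [h1, hanti]
      have h2 : u (φ₀.comp (g : E →+* E)) ≠ 0 := by
        intro h0
        have h3 := hu'.1 (φ₀.comp (g : E →+* E))
        rw [h0, abs_zero] at h3
        exact (hw _).ne h3
      omega
    · unfold OddSums at hno
      push Not at hno
      obtain ⟨τ, χ, hχ, hsum⟩ := hno
      refine ⟨χ, hχ, ?_⟩
      obtain ⟨h', rfl⟩ := (comp_bijectiveP φ₀).2 τ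
      have h2 : ∑ g : E ≃ₐ[ℚ] E, (u ((φ₀.comp (h' : E →+* E)).comp (g : E →+* E)) : ℂ) * χ g =
          χ h'⁻¹ * wsum (fun g : E ≃ₐ[ℚ] E => w (φ₀.comp (g : E →+* E))) χ (A u) := by
        unfold wsum
        rw [Finset.mul_sum, ← Equiv.sum_comp (Equiv.mulLeft h') (fun g => χ h'⁻¹ *
          (((if g ∈ A u then (1 : ℂ) else -1) * (w (φ₀.comp (g : E →+* E)) : ℂ)) * χ g))]
        refine Finset.sum_congr rfl fun g _ => ?_
        rw [Equiv.coe_mulLeft, map_mul]
        have h3 : χ h'⁻¹ * χ h' = 1 := by rw [← map_mul, inv_mul_cancel, map_one]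
        have h4 : (φ₀.comp (h' : E →+* E)).comp (g : E →+* E) =
            φ₀.comp ((h' * g : E ≃ₐ[ℚ] E) : E →+* E) := rfl
        rw [h4, hval u hu' (h' * g)]
        have h5 : (((if h' * g ∈ A u then 1 else -1) * w (φ₀.comp ((h' * g : E ≃ₐ[ℚ] E) : E →+* E))
            : ℤ) : ℂ) = (if h' * g ∈ A u then (1 : ℂ) else -1) *
            (w (φ₀.comp ((h' * g : E ≃ₐ[ℚ] E) : E →+* E)) : ℂ) := by
          push_cast
          rfl
        rw [h5]
        linear_combination (-(((if h' * g ∈ A u then (1 : ℂ) else -1) *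
            (w (φ₀.comp ((h' * g : E ≃ₐ[ℚ] E) : E →+* E)) : ℂ)) * χ g)) * h3
      have h3 : χ h'⁻¹ * wsum (fun g : E ≃ₐ[ℚ] E => w (φ₀.comp (g : E →+* E))) χ (A u) = 0 := by
        rw [← h2]
        exact hsum
      refine (mul_eq_zero.1 h3).resolve_left ?_
      intro h4
      have h5 : χ h'⁻¹ * χ h' = 1 := by rw [← map_mul, inv_mul_cancel, map_one]
      rw [h4, zero_mul] at h5
      exact zero_ne_one h5

end Pool.Agent.H977R3.AB
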