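import Mathlib
import Pool.Agent.H977R3.AB.WFields
import Pool.Agent.H485R3.Match

/-!
# Sign patterns with a vanishing odd character sum, Weil numbers and Tate classes
-/

namespace Pool.Agent.H977R3.AB

open NumberField Module

/-- The functions `u` with the absolute values `w` and with opposite signs at conjugate embeddings
for which some odd character sum vanishes. -/
def vanishingPatterns {p : ℕ} [Fact p.Prime] {F : Type*} [Field F] [NumberField F] [IsCMField F]
    (w : (F →+* PadicAlgCl p) → ℤ) : Set ((F →+* PadicAlgCl p) → ℤ) :=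
  {u | (∀ τ, |u τ| = w τ) ∧ (∀ τ, u (τ.comp (conj F : F →+* F)) = -u τ) ∧ ¬ OddSums u}

/-- The number `π` generates its field, its complex absolute values are `p ^ (m / 2)`, and its
`p`-adic valuations are `(m + κ * u τ) / 2` for a nonzero rational number `κ`. -/
def IsWeilWithSlopes (p m : ℕ) [Fact p.Prime] {K : Type} [Field K] [NumberField K] (π : K)
    (u : (K →+* PadicAlgCl p) → ℤ) : Prop :=
  IntermediateField.adjoin ℚ {π} = ⊤ ∧ (∀ φ : K →+* ℂ, ‖φ π‖ ^ 2 = (p : ℝ) ^ m) ∧
    ∃ κ : ℚ, κ ≠ 0 ∧ ∀ τ : K →+* PadicAlgCl p,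
      2 * (- Real.logb p ‖τ π‖) - m = (κ : ℝ) * u τ

/-- All Tate classes, over all finite extensions, in multilinear forms on Frobenius modules `V i`
with eigenvalues conjugate to `π i` are combinations of products of pairings. -/
def TateFromPairings (p : ℕ) {I : Type} {K : I → Type} [∀ i, Field (K i)] (m : I → ℕ)
    (π : ∀ i, K i) : Prop :=
  ∀ {Ω : Type} [Field Ω] [IsAlgClosed Ω] [CharZero Ω] (V : I → Type) [∀ i, AddCommGroup (V i)]
    [∀ i, Module Ω (V i)] [∀ i, FiniteDimensional Ω (V i)] (F : ∀ i, V i →ₗ[Ω] V i),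
    (∀ i, Submodule.span Ω {v : V i | ∃ σ : K i →+* Ω, F i v = σ (π i) • v} = ⊤) →
    ∀ {n : ℕ} (t : Fin n → I) (s : ℕ), 0 < s → ∀ c : Ω, c ^ 2 = ∏ l, (p : Ω) ^ m (t l) →
    ∀ φ : MultilinearMap Ω (fun l => V (t l)) Ω,
      (∀ v : ∀ l, V (t l), φ (fun l => (F (t l) ^ s) (v l)) = c ^ s * φ v) →
      φ ∈ Submodule.span Ω
        {ψ | Pool.Agent.H485R3.IsProductOfPairings V F (fun i => (p : Ω) ^ m i) t ψ}

end Pool.Agent.H977R3.AB
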